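import Pool.Agent.Helper82K9.Above

set_option autoImplicit false

/-! # Every surgery obstruction is represented by a form of norm just above `3 / √2`

Let `Γ` be any group with an orientation character `w`. The starting file `ThinPoincareComplexes` of
this problem shows that, for torsion-free `Γ`, forms and Poincaré complexes of norm less than
`3 / √2` come from cyclic subgroups. Here it is shown that for every `c > 3 / √2` every quadratic
form over `ℤ[Γ]` is, after the addition of a hyperbolic form, (simply) isometric to one whose
symmetrisation has operator norm at most `c`. So `3 / √2` is a threshold: in even degrees all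
classes of the surgery obstruction group are represented just above it. Moreover the matrix of the
new form has at most three entries in each row, and they are `± 1`, `± s` or `± s⁻¹` with `s` in a
given generating set.

Idea. The form is rewritten as the form of a network: a matrix `1 - N` with `N` nilpotent, between
two bases dual to each other for the hyperbolic form, together with connections to the old basis.
The Schur complement of the network is the old form, it is the sum over the paths of the network.
With combs every vertex has at most three neighbours, a further subdivision puts the vertices of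
degree three at a large distance from each other. Then the norm is close to that of the infinite
star with three rays, `3 / √2`, by the Schur test. -/

namespace Pool.Agent.Results.MP_c13a79_gt.AboveThreshold

open Matrix TH57.Thr TH6.PF

open Classical in
theorem result (Γ : Type) [Group Γ] (w : Γ →* ℤˣ) (S : Set Γ) (hS : Subgroup.closure S = ⊤)
    (ε : ℤ) (hε : ε = 1 ∨ ε = -1) (c : ℝ) (hc0 : 0 < c) (hc : 9 / 2 < c ^ 2)
    (n : ℕ) (ψ : Matrix (Fin n) (Fin n) (MonoidAlgebra ℤ Γ)) :
    ∃ (q : ℕ)
      (E ψ' lam : Matrix (Fin n ⊕ (Fin q ⊕ Fin q)) (Fin n ⊕ (Fin q ⊕ Fin q)) (MonoidAlgebra ℤ Γ)),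
      E ∈ El (R := MonoidAlgebra ℤ Γ) (Fin n ⊕ (Fin q ⊕ Fin q)) ∧
      ψ' = E * fromBlocks ψ 0 0 (fromBlocks 0 1 0 0) * sadj w E ∧
      lam = ψ' + ε • sadj w ψ' ∧
      NormLE lam c ∧
      (∀ i, (Finset.univ.filter fun j => lam i j ≠ 0).card ≤ 3) ∧
      (∀ i, lam i i = 0) ∧
      (∀ i j, lam i j = 0 ∨ ∃ (g : Γ) (u : ℤˣ), (g = 1 ∨ g ∈ S ∨ g⁻¹ ∈ S) ∧
        lam i j = MonoidAlgebra.single g (u : ℤ)) ∧
      (IsUnit (ψ + ε • sadj w ψ) → IsUnit lam) := by
  obtain ⟨q, E, ψ', lam, h1, h2, h3, h4, h5, h6, h7, h8⟩ :=
    Helper82K9.SF.above w S hS ε hε c hc0 hc ψ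
  exact ⟨q, E, ψ', lam, h1, h2, h3, h4, h7, h6, h5, h8⟩

end Pool.Agent.Results.MP_c13a79_gt.AboveThreshold
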